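import Mathlib
import Pool.Agent.Helper84.NCDefs
import Pool.Agent.Helper84.NCIndec
import Pool.Agent.Helper84.NCLevel

/-!
# A family of counterexamples to the rational free Bertini theorem, in almost all characteristics

For the noncommuting variables `x, y` and `b ≠ 0` let `h = x y - y x`,
`m = (x ^ 3 + b - y ^ 2) h⁻¹` and `r_b = m ^ 2 - x - h x h⁻¹`. Over every algebraically closed field
of characteristic different from `2` and `3` these noncommutative rational functions are pairwise
different, none of them decomposes, and all their level sets of size at least five, up to finitely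
many values for each size, are nonempty and reducible.
-/

set_option autoImplicit false

namespace Pool.Agent.Results.MP_240e45_ag.EllipticFamily

open Pool.Agent.Helper84 Pool.Agent.Helper84.NCExpr

variable {K : Type} [Field K] {G : Type}

/-- The expression represents an element of the free skew field: it is defined at some tuple of
matrices over `K` of some positive size. -/
def Nondegenerate (r : NCExpr K G) : Prop :=
  ∃ n : ℕ, 0 < n ∧ ∃ X : G → Matrix (Fin n) (Fin n) K, r.DefinedAt X

/-- The Zariski closed set of tuples of `n × n` matrices cut out by a set `Z` of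
polynomials in the matrix entries. -/
def zeroSet {n : ℕ} (Z : Set (MvPolynomial (G × Fin n × Fin n) K)) :
    Set (G → Matrix (Fin n) (Fin n) K) :=
  {X | ∀ p ∈ Z, MvPolynomial.eval (fun t => X t.1 t.2.1 t.2.2) p = 0}

/-- Irreducibility of a set of matrix tuples for the Zariski topology: it is nonempty, and whenever
it is covered by two closed sets it is contained in one of them. -/
def ZariskiIrreducible {n : ℕ} (L : Set (G → Matrix (Fin n) (Fin n) K)) : Prop :=
  L.Nonempty ∧ ∀ Z₁ Z₂ : Set (MvPolynomial (G × Fin n × Fin n) K),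
    L ⊆ zeroSet Z₁ ∪ zeroSet Z₂ → L ⊆ zeroSet Z₁ ∨ L ⊆ zeroSet Z₂

/-- The level set `{X ∈ dom_n(r) : det (r(X) - c) = 0}` of the noncommutative rational function
represented by `r`; the domain is the set of tuples at which some representing expression
`r'` is defined. -/
def levelSet (r : NCExpr K G) (n : ℕ) (c : K) : Set (G → Matrix (Fin n) (Fin n) K) :=
  {X | ∃ r' : NCExpr K G, SameFunction K r r' ∧ r'.DefinedAt X ∧
    (r'.eval X - c • (1 : Matrix (Fin n) (Fin n) K)).det = 0}

/-- Generically irreducible level sets. -/
def GenericallyIrreducible (r : NCExpr K G) : Prop :=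
  ∃ N : ℕ, 0 < N ∧ ∃ E : Set K, E.Finite ∧
    ∀ n : ℕ, N ≤ n → ∀ c : K, c ∉ E → ZariskiIrreducible (levelSet r n c)

/-- Moebius functions. -/
def IsMobius (f : RatFunc K) : Prop :=
  ∃ a b c d : K, a * d - b * c ≠ 0 ∧
    f = (RatFunc.C a * RatFunc.X + RatFunc.C b) / (RatFunc.C c * RatFunc.X + RatFunc.C d)

/-- `r = f(s)` for `f = f.num / f.denom` (in lowest terms): the element `f.denom (s)` of the free
skew field is invertible (equivalently, invertible at some tuple of matrices), and
`r · f.denom (s) = f.num (s)` at every tuple of matrices at which `r` and `s` are defined. -/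
def IsComposition (r : NCExpr K G) (f : RatFunc K) (s : NCExpr K G) : Prop :=
  (∃ n : ℕ, 0 < n ∧ ∃ X : G → Matrix (Fin n) (Fin n) K, s.DefinedAt X ∧
    IsUnit (Polynomial.aeval (s.eval X) f.denom)) ∧
  ∀ (n : ℕ) (X : G → Matrix (Fin n) (Fin n) K), r.DefinedAt X → s.DefinedAt X →
    r.eval X * Polynomial.aeval (s.eval X) f.denom = Polynomial.aeval (s.eval X) f.num

/-- `r` decomposes: `r = f(s)` for some non-Moebius `f` and some noncommutative rational
function `s`. -/
def Decomposes (r : NCExpr K G) : Prop :=
  ∃ (f : RatFunc K) (s : NCExpr K G), ¬ IsMobius f ∧ IsComposition r f s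

/-- The difference `a - c` of two expressions. -/
def sub (a c : NCExpr K G) : NCExpr K G := add a (mul (scalar (-1)) c)

/-- `h = x y - y x`. -/
def hh (x y : NCExpr K G) : NCExpr K G := sub (mul x y) (mul y x)

/-- `m = (x ^ 3 + b - y ^ 2) h⁻¹`. -/
def mm (b : K) (x y : NCExpr K G) : NCExpr K G :=
  mul (sub (add (mul x (mul x x)) (scalar b)) (mul y y)) (inv (hh x y))

/-- `r_b = m ^ 2 - x - h x h⁻¹`. -/
def ell (b : K) (x y : NCExpr K G) : NCExpr K G :=
  sub (sub (mul (mm b x y) (mm b x y)) x) (mul (mul (hh x y) x) (inv (hh x y)))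

theorem isMobius_of_degree (f : RatFunc K)
    (h : max f.num.natDegree f.denom.natDegree = 1) : IsMobius f := by
  have h1 : f.num.natDegree ≤ 1 := (le_max_left _ _).trans h.le
  have h2 : f.denom.natDegree ≤ 1 := (le_max_right _ _).trans h.le
  obtain ⟨a, b, hab⟩ := Polynomial.exists_eq_X_add_C_of_natDegree_le_one h1
  obtain ⟨c, d, hcd⟩ := Polynomial.exists_eq_X_add_C_of_natDegree_le_one h2
  refine ⟨a, b, c, d, ?_, ?_⟩
  · intro h0
    obtain ⟨u, v, huv⟩ := RatFunc.isCoprime_num_denom f
    by_cases hc : c = 0
    · have hd : d ≠ 0 := by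
        rintro rfl
        apply f.denom_ne_zero
        rw [hcd, hc]; simp
      have ha : a = 0 := by
        rw [hc] at h0
        have : a * d = 0 := by linear_combination h0
        exact (mul_eq_zero.mp this).resolve_right hd
      rw [hab, hcd, ha, hc] at h
      simp at h
    · have hev : Polynomial.eval (-d / c) f.denom = 0 := by
        rw [hcd]
        simp only [Polynomial.eval_add, Polynomial.eval_mul, Polynomial.eval_C,
          Polynomial.eval_X]
        field_simp
        ring
      have hev2 : Polynomial.eval (-d / c) f.num = 0 := by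
        rw [hab]
        simp only [Polynomial.eval_add, Polynomial.eval_mul, Polynomial.eval_C,
          Polynomial.eval_X]
        field_simp
        linear_combination -h0
      have := congrArg (Polynomial.eval (-d / c)) huv
      rw [Polynomial.eval_add, Polynomial.eval_mul, Polynomial.eval_mul, hev, hev2] at this
      simp at this
  · conv_lhs => rw [← RatFunc.num_div_denom f, hab, hcd]
    simp only [map_add, map_mul, RatFunc.algebraMap_X, RatFunc.algebraMap_C]

/-- the test pair of matrices -/
def testX (i : G) [DecidableEq G] (a : K) : G → Matrix (Fin 2) (Fin 2) K := fun t =>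
  if t = i then !![a, 1; 0, a] else !![0, 0; 1, 0]

theorem test_h (a : K) :
    (!![a, 1; 0, a] : Matrix (Fin 2) (Fin 2) K) * !![0, 0; 1, 0] +
      algebraMap K (Matrix (Fin 2) (Fin 2) K) (-1) * (!![0, 0; 1, 0] * !![a, 1; 0, a]) =
      !![1, 0; 0, -1] := by
  ext p q
  fin_cases p <;> fin_cases q <;>
    simp [Matrix.mul_apply, Fin.sum_univ_two, Matrix.algebraMap_matrix_apply]

theorem test_inv : Ring.inverse (!![1, 0; 0, -1] : Matrix (Fin 2) (Fin 2) K) =
    !![1, 0; 0, -1] := by
  have h : (!![1, 0; 0, -1] : Matrix (Fin 2) (Fin 2) K) * !![1, 0; 0, -1] = 1 := by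
    ext p q
    fin_cases p <;> fin_cases q <;> simp [Matrix.mul_apply, Fin.sum_univ_two]
  exact Ring.inverse_unit (⟨_, _, h, h⟩ : (Matrix (Fin 2) (Fin 2) K)ˣ)

theorem test_unit : IsUnit (!![1, 0; 0, -1] : Matrix (Fin 2) (Fin 2) K) := by
  have h : (!![1, 0; 0, -1] : Matrix (Fin 2) (Fin 2) K) * !![1, 0; 0, -1] = 1 := by
    ext p q
    fin_cases p <;> fin_cases q <;> simp [Matrix.mul_apply, Fin.sum_univ_two]
  exact IsUnit.of_mul_eq_one _ h

theorem ell_defined [DecidableEq G] {i j : G} (hij : i ≠ j) (a b : K) :
    (ell b (var i) (var j)).DefinedAt (testX i a) := by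
  have hi : testX i a i = !![a, 1; 0, a] := if_pos rfl
  have hj : testX i a j = !![0, 0; 1, 0] := if_neg hij.symm
  have hu : IsUnit (testX i a i * testX i a j +
      algebraMap K (Matrix (Fin 2) (Fin 2) K) (-1) * (testX i a j * testX i a i)) := by
    rw [hi, hj, test_h]; exact test_unit
  simp only [ell, mm, hh, sub, DefinedAt, eval, true_and, and_true, hu]

theorem ell_eval [DecidableEq G] {i j : G} (hij : i ≠ j) (a b : K) :
    (ell b (var i) (var j)).eval (testX i a) 0 0 = (a ^ 3 + b) ^ 2 - 2 * a := by
  have hi : testX i a i = !![a, 1; 0, a] := if_pos rfl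
  have hj : testX i a j = !![0, 0; 1, 0] := if_neg hij.symm
  simp only [ell, mm, hh, sub, eval, hi, hj, test_h, test_inv]
  simp [Matrix.mul_apply, Fin.sum_univ_two, Matrix.algebraMap_matrix_apply]
  ring

/-- **Rational free Bertini fails, for an explicit family, in almost all characteristics.** Let `K`
be an algebraically closed field of characteristic different from `2` and `3`, and let `x`, `y` be
two of the free variables. For `b ≠ 0` the noncommutative rational function
`r_b = m ^ 2 - x - h x h⁻¹`, where `h = x y - y x` and `m = (x ^ 3 + b - y ^ 2) h⁻¹`, does not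
decompose and does not have generically irreducible level sets; in fact its level sets in `n × n`
matrices are nonempty and reducible for every `n ≥ 5` and all but finitely many values. For
different `b` these noncommutative rational functions are different. -/
theorem result {K : Type} [Field K] [IsAlgClosed K] (h2 : (2 : K) ≠ 0) (h3 : (3 : K) ≠ 0)
    {G : Type} {i j : G} (hij : i ≠ j) :
    (∀ b : K, b ≠ 0 → Nondegenerate (ell b (var i) (var j)) ∧
      ¬ Decomposes (ell b (var i) (var j)) ∧ ¬ GenericallyIrreducible (ell b (var i) (var j)) ∧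
      ∀ n : ℕ, 5 ≤ n → ∃ E : Set K, E.Finite ∧
        ∀ c : K, c ∉ E → (levelSet (ell b (var i) (var j)) n c).Nonempty ∧
          ¬ ZariskiIrreducible (levelSet (ell b (var i) (var j)) n c)) ∧
    (∀ b b' : K, SameFunction K (ell b (var i) (var j)) (ell b' (var i) (var j)) → b = b') := by
  classical
  refine ⟨fun b hb => ?_, fun b b' hbb => ?_⟩
  · have : Infinite K := IsAlgClosed.instInfinite
    let e : Fin 2 → G := ![i, j]
    have he : Function.Injective e := by
      intro p q hpq
      fin_cases p <;> fin_cases q
      · rfl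
      · exact absurd hpq hij
      · exact absurd hpq hij.symm
      · rfl
    have hell : ell b (var i) (var j) = (lamE b).rename e := rfl
    rw [hell]
    have hlev : ∀ n : ℕ, 5 ≤ n → ∃ E : Set K, E.Finite ∧
        ∀ c : K, c ∉ E → (levelSet ((lamE b).rename e) n c).Nonempty ∧
          ¬ ZariskiIrreducible (levelSet ((lamE b).rename e) n c) := by
      intro n hn
      obtain ⟨p, rfl⟩ : ∃ p, n = p + 5 := ⟨n - 5, by omega⟩
      obtain ⟨S, hS⟩ := level_reducible h2 b e he p
      refine ⟨S, S.finite_toSet, ?_⟩
      intro c hc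
      obtain ⟨P₁, P₂, X₁, X₂, ⟨hd₁, hz₁, hP₁⟩, ⟨hd₂, hz₂, hP₂⟩, H⟩ :=
        hS c (by simpa using hc)
      have hX₁ : X₁ ∈ levelSet ((lamE b).rename e) (p + 5) c :=
        ⟨_, fun _ _ _ _ => rfl, hd₁, hz₁⟩
      have hX₂ : X₂ ∈ levelSet ((lamE b).rename e) (p + 5) c :=
        ⟨_, fun _ _ _ _ => rfl, hd₂, hz₂⟩
      refine ⟨⟨X₁, hX₁⟩, ?_⟩
      rintro ⟨_, hirr⟩
      have hspec : ∀ (X : G → Matrix (Fin (p + 5)) (Fin (p + 5)) K)
          (P : MvPolynomial (G × Fin (p + 5) × Fin (p + 5)) K),
          MvPolynomial.eval (fun t => X t.1 t.2.1 t.2.2) P = spec (k := K) X P := by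
        intro X P
        rfl
      rcases hirr {P₁} {P₂} (by
        rintro X ⟨r', hr', hdr', hzr'⟩
        by_contra hcon
        rw [Set.mem_union, not_or] at hcon
        have h1 : spec (k := K) X P₁ ≠ 0 := by
          intro h
          apply hcon.1
          intro q hq
          rw [Set.mem_singleton_iff] at hq
          rw [hq, hspec]; exact h
        have h2 : spec (k := K) X P₂ ≠ 0 := by
          intro h
          apply hcon.2
          intro q hq
          rw [Set.mem_singleton_iff] at hq
          rw [hq, hspec]; exact h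
        obtain ⟨hd, hz⟩ := H X h1 h2
        rw [← hr' _ X hd hdr'] at hzr'
        exact hz hzr') with h | h
      · exact hP₁ (h hX₁ P₁ rfl)
      · exact hP₂ (h hX₂ P₂ rfl)
    refine ⟨?_, ?_, ?_, hlev⟩
    · obtain ⟨W, hW⟩ := good_all (K := K) h2 b [] 0
      have hW' := lamE_of_rE b [] W hW
      refine ⟨2, by norm_num, Function.extend e W 0, ?_⟩
      rw [defined_rename]
      have : (fun i => Function.extend e W 0 (e i)) = W := by
        funext i
        exact he.extend_apply W 0 i
      rw [this]
      exact hW'
    · rintro ⟨f, s, hf, ⟨n, hn, X, hX, hu⟩, hrel⟩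
      exact hf (isMobius_of_degree f
        (indecomposable h2 h3 hb e he f s ⟨n, X, hn, hX, hu⟩ hrel))
    · rintro ⟨N, _, E, hE, hirr⟩
      obtain ⟨E', hE', hred⟩ := hlev (max N 5) (le_max_right _ _)
      obtain ⟨c, hc⟩ := (hE.union hE').exists_notMem
      rw [Set.mem_union, not_or] at hc
      exact (hred c hc.2).2 (hirr _ (le_max_left _ _) c hc.1)
  · have key : ∀ a : K, (a ^ 3 + b) ^ 2 = (a ^ 3 + b') ^ 2 := by
      intro a
      have h := hbb 2 (testX i a) (ell_defined hij a b) (ell_defined hij a b')
      have h' := congrFun (congrFun h 0) 0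
      rw [ell_eval hij, ell_eval hij] at h'
      linear_combination h'
    have e0 := key 0
    have e1 := key 1
    have : (2 : K) * (b - b') = 0 := by linear_combination e1 - e0
    rcases mul_eq_zero.mp this with h | h
    · exact absurd h h2
    · exact sub_eq_zero.mp h

end Pool.Agent.Results.MP_240e45_ag.EllipticFamily
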